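import Mathlib

/-!
# A bidemocratic basis of `ℓ₂` that is not squeezed between Lorentz spaces

We construct a bidemocratic basis of `ℓ₂` such that `ℓ_{2,q}` does not embed in `ℓ₂` through the
basis for any `q > 1` and `ℓ₂` does not embed in `ℓ_{2,r}` through the basis for any `r < ∞`.
-/

open scoped ENNReal InnerProductSpace

namespace Pool.Agent.Results.MP_c77635_an.NoLorentzSqueeze

/-- The sequence space `ℓ₂` over the scalar field `𝕜` (real or complex scalars). -/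
abbrev Ell2 (𝕜 : Type) [RCLike 𝕜] : Type := lp (fun _ : ℕ => 𝕜) 2

/-- `x` is a basis of `ℓ₂` with biorthogonal functionals `f ↦ ⟪y n, f⟫`: the span of the `x n` is
dense, the functionals are biorthogonal to the `x n`, they separate the points of `ℓ₂`, and both
sequences are bounded. -/
structure IsBasis {𝕜 : Type} [RCLike 𝕜] (x y : ℕ → Ell2 𝕜) : Prop where
  dense_span : (Submodule.span 𝕜 (Set.range x)).topologicalClosure = ⊤
  biorth : ∀ n k, ⟪y n, x k⟫_𝕜 = if n = k then 1 else 0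
  separates : ∀ f : Ell2 𝕜, (∀ n, ⟪y n, f⟫_𝕜 = 0) → f = 0
  bounded : ∃ C : ℝ, ∀ n, ‖x n‖ ≤ C ∧ ‖y n‖ ≤ C

/-- `φ_m`: the supremum of `‖∑_{n ∈ A} ε_n x_n‖` over `|A| ≤ m` and `|ε_n| = 1`. -/
noncomputable def phi {𝕜 : Type} [RCLike 𝕜] (x : ℕ → Ell2 𝕜) (m : ℕ) : ℝ≥0∞ :=
  ⨆ (A : Finset ℕ) (_ : A.card ≤ m) (ε : ℕ → 𝕜) (_ : ∀ n, ‖ε n‖ = 1), ‖∑ n ∈ A, ε n • x n‖ₑ

/-- Bidemocracy: `sup_m φ_m φ*_m / m < ∞`. -/
def IsBidemocratic {𝕜 : Type} [RCLike 𝕜] (x y : ℕ → Ell2 𝕜) : Prop :=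
  ∃ C : ℝ≥0∞, C ≠ ∞ ∧ ∀ m : ℕ, 1 ≤ m → phi x m * phi y m ≤ C * m

/-- The non-increasing rearrangement of `(|a n|)`, indexed from `0`: `rearr a n` is the
`(n+1)`-st term. -/
noncomputable def rearr {𝕜 : Type} [RCLike 𝕜] (a : ℕ → 𝕜) (n : ℕ) : ℝ≥0∞ :=
  sInf {t : ℝ≥0∞ | {i : ℕ | t < ‖a i‖ₑ}.encard ≤ n}

/-- The Lorentz quasi-norm of `ℓ_{2,s}`:
`(∑_{n ≥ 1} (a*_n)^s n^{s/2-1})^{1/s}`, with value `∞` if the sum diverges. -/
noncomputable def lorentz {𝕜 : Type} [RCLike 𝕜] (s : ℝ) (a : ℕ → 𝕜) : ℝ≥0∞ :=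
  (∑' n : ℕ, rearr a n ^ s * ((n : ℝ≥0∞) + 1) ^ (s / 2 - 1)) ^ (1 / s)

/-- `ℓ_{2,q} ↪ ℓ₂` through `x`: `‖∑ a_n x_n‖ ≤ C ‖a‖_{2,q}` for all finitely supported `a`. -/
def EmbedsInto {𝕜 : Type} [RCLike 𝕜] (x : ℕ → Ell2 𝕜) (q : ℝ) : Prop :=
  ∃ C : ℝ≥0∞, C ≠ ∞ ∧ ∀ a : ℕ →₀ 𝕜, ‖a.sum (fun n c => c • x n)‖ₑ ≤ C * lorentz q a

/-- `ℓ₂ ↪ ℓ_{2,r}` through the basis with biorthogonal functionals `y`:
`‖(⟪y n, f⟫)_n‖_{2,r} ≤ C ‖f‖` for all `f ∈ ℓ₂`. -/
def EmbedsOut {𝕜 : Type} [RCLike 𝕜] (y : ℕ → Ell2 𝕜) (r : ℝ) : Prop :=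
  ∃ C : ℝ≥0∞, C ≠ ∞ ∧ ∀ f : Ell2 𝕜, lorentz r (fun n => ⟪y n, f⟫_𝕜) ≤ C * ‖f‖ₑ

/-! ### The construction -/

section construction

/-- Block number. -/
def blk (n : ℕ) : ℕ := Nat.log 2 (n + 1)

/-- The block `N`. -/
def B (N : ℕ) : Finset ℕ := Finset.Ico (2 ^ N - 1) (2 ^ (N + 1) - 1)

/-- Position in the block. -/
def pos (n : ℕ) : ℕ := n + 1 - 2 ^ blk n

lemma mem_B {n N : ℕ} : n ∈ B N ↔ blk n = N := by
  unfold B blk
  rw [Finset.mem_Ico, Nat.log_eq_iff (Or.inr ⟨by norm_num, by omega⟩)]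
  have h1 : 1 ≤ 2 ^ N := Nat.one_le_two_pow
  have h2 : 1 ≤ 2 ^ (N + 1) := Nat.one_le_two_pow
  omega

/-- The weight `a_n = (pos n + 1)^{-1/2}`. -/
noncomputable def a (n : ℕ) : ℝ := 1 / √((pos n : ℝ) + 1)

lemma a_pos (n : ℕ) : 0 < a n := by unfold a; positivity

lemma a_sq (n : ℕ) : a n ^ 2 = 1 / ((pos n : ℝ) + 1) := by
  unfold a
  rw [div_pow, Real.sq_sqrt (by positivity)]
  norm_num

lemma a_le_one (n : ℕ) : a n ≤ 1 := by
  unfold a
  rw [div_le_one (by positivity)]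
  rw [Real.one_le_sqrt]
  have : (0 : ℝ) ≤ pos n := by positivity
  linarith

/-- `s N = ∑_{n ∈ B N} a_n²`. -/
noncomputable def s (N : ℕ) : ℝ := ∑ n ∈ B N, a n ^ 2

lemma sum_B {M : Type*} [AddCommMonoid M] (N : ℕ) (f : ℕ → M) :
    ∑ n ∈ B N, f (pos n) = ∑ j ∈ Finset.range (2 ^ N), f j := by
  have h1 : 1 ≤ 2 ^ N := Nat.one_le_two_pow
  have h2 : 2 ^ (N + 1) = 2 ^ N + 2 ^ N := by ring
  have : ∑ n ∈ B N, f (pos n) = ∑ n ∈ B N, f (n + 1 - 2 ^ N) := by
    refine Finset.sum_congr rfl fun n hn => ?_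
    rw [mem_B] at hn
    unfold pos
    rw [hn]
  rw [this]
  unfold B
  rw [Finset.sum_Ico_eq_sum_range]
  have h3 : 2 ^ (N + 1) - 1 - (2 ^ N - 1) = 2 ^ N := by omega
  rw [h3]
  refine Finset.sum_congr rfl fun j _ => ?_
  congr 1
  omega

lemma s_eq (N : ℕ) : s N = ∑ j ∈ Finset.range (2 ^ N), 1 / ((j : ℝ) + 1) := by
  unfold s
  rw [← sum_B N (fun j => 1 / ((j : ℝ) + 1))]
  exact Finset.sum_congr rfl fun n _ => a_sq n

lemma one_le_s (N : ℕ) : 1 ≤ s N := by
  rw [s_eq]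
  calc (1 : ℝ) = ∑ j ∈ Finset.range 1, 1 / ((j : ℝ) + 1) := by simp
    _ ≤ _ := Finset.sum_le_sum_of_subset_of_nonneg (by simp)
      (fun j _ _ => by positivity)

lemma s_tendsto : Filter.Tendsto s Filter.atTop Filter.atTop := by
  have h := Real.tendsto_sum_range_one_div_nat_succ_atTop.comp
    (tendsto_pow_atTop_atTop_of_one_lt (one_lt_two (α := ℕ)))
  refine h.congr fun N => ?_
  rw [s_eq]
  rfl

/-- `lam N = √(s N)`. -/
noncomputable def lam (N : ℕ) : ℝ := √(s N)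

lemma one_le_lam (N : ℕ) : 1 ≤ lam N := by
  unfold lam
  rw [Real.one_le_sqrt]
  exact one_le_s N

lemma lam_pos (N : ℕ) : 0 < lam N := lt_of_lt_of_le one_pos (one_le_lam N)

lemma lam_sq (N : ℕ) : lam N ^ 2 = s N := by
  unfold lam
  exact Real.sq_sqrt (by linarith [one_le_s N])

/-- normalised weights -/
noncomputable def w (n : ℕ) : ℝ := a n / lam (blk n)

lemma sum_w_a (N : ℕ) : ∑ n ∈ B N, w n * a n = lam N := by
  have : ∑ n ∈ B N, w n * a n = (∑ n ∈ B N, a n ^ 2) / lam N := by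
    rw [Finset.sum_div]
    refine Finset.sum_congr rfl fun n hn => ?_
    rw [mem_B] at hn
    unfold w
    rw [hn]
    ring
  rw [this]
  change s N / lam N = lam N
  rw [← lam_sq]
  field_simp [(lam_pos N).ne']

lemma sum_w_sq (N : ℕ) : ∑ n ∈ B N, w n * w n = 1 := by
  have : ∑ n ∈ B N, w n * w n = (∑ n ∈ B N, w n * a n) / lam N := by
    rw [Finset.sum_div]
    refine Finset.sum_congr rfl fun n hn => ?_
    rw [mem_B] at hn
    conv_lhs => rw [w, hn]
    rw [w, hn]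
    ring
  rw [this, sum_w_a]
  exact div_self (lam_pos N).ne'

lemma sum_pos_le (P : Finset ℕ) :
    ∑ j ∈ P, 1 / √((j : ℝ) + 1) ≤ 2 * √(P.card : ℝ) := by
  induction P using Finset.induction_on_max with
  | empty => simp
  | insert m P hm ih =>
    have hmP : m ∉ P := fun h => lt_irrefl _ (hm m h)
    rw [Finset.sum_insert hmP, Finset.card_insert_of_notMem hmP]
    have hcard : P.card ≤ m := by
      have : P ⊆ Finset.range m := fun x hx => Finset.mem_range.2 (hm x hx)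
      simpa using Finset.card_le_card this
    have hc : (P.card : ℝ) ≤ m := by exact_mod_cast hcard
    set c : ℝ := (P.card : ℝ) with hcdef
    have hc0 : 0 ≤ c := by positivity
    have h1 : 1 / √((m : ℝ) + 1) ≤ 1 / √(c + 1) := by
      apply one_div_le_one_div_of_le (by positivity)
      exact Real.sqrt_le_sqrt (by linarith)
    have h2 : 1 / √(c + 1) ≤ 2 * √(c + 1) - 2 * √c := by
      have hs : 0 < √(c + 1) := by positivity
      rw [div_le_iff₀ hs]
      have e1 : √(c + 1) * √(c + 1) = c + 1 := Real.mul_self_sqrt (by positivity)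
      have e2 : √c * √c = c := Real.mul_self_sqrt hc0
      nlinarith [sq_nonneg (√(c + 1) - √c)]
    push_cast
    rw [← hcdef]
    linarith

lemma sum_a_le (N : ℕ) (A : Finset ℕ) (hA : ∀ n ∈ A, blk n = N) :
    ∑ n ∈ A, a n ≤ 2 * √(A.card : ℝ) := by
  have hinj : Set.InjOn pos (A : Set ℕ) := by
    intro n hn m hm h
    have h1 := hA n hn
    have h2 := hA m hm
    have e1 := mem_B.2 h1
    have e2 := mem_B.2 h2
    unfold B at e1 e2
    rw [Finset.mem_Ico] at e1 e2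
    unfold pos at h
    rw [h1, h2] at h
    omega
  have := sum_pos_le (A.image pos)
  rw [Finset.sum_image hinj, Finset.card_image_of_injOn hinj] at this
  exact this

end construction

section vectors

variable {𝕜 : Type} [RCLike 𝕜]

/-- The unit vectors of `ℓ₂`. -/
noncomputable def e (n : ℕ) : Ell2 𝕜 := lp.single 2 n (1 : 𝕜)

lemma inner_e_left (n : ℕ) (f : Ell2 𝕜) : ⟪(e n : Ell2 𝕜), f⟫_𝕜 = f n := by
  unfold e
  rw [lp.inner_single_left]
  simp

lemma inner_e_e (n k : ℕ) : ⟪(e n : Ell2 𝕜), e k⟫_𝕜 = if n = k then 1 else 0 := by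
  rw [inner_e_left]
  unfold e
  rw [lp.single_apply]
  by_cases h : n = k
  · subst h; simp
  · simp [h]

lemma orthonormal_e : Orthonormal 𝕜 (e : ℕ → Ell2 𝕜) := by
  rw [orthonormal_iff_ite]
  exact inner_e_e

/-- The block unit vectors `u_N`. -/
noncomputable def u (N : ℕ) : Ell2 𝕜 := ∑ n ∈ B N, (w n : 𝕜) • e n

lemma inner_e_u (n N : ℕ) : ⟪(e n : Ell2 𝕜), u N⟫_𝕜 = if blk n = N then (w n : 𝕜) else 0 := by
  unfold u
  rw [inner_sum]
  simp only [inner_smul_right, inner_e_e]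
  simp only [mul_ite, mul_one, mul_zero]
  rw [Finset.sum_ite_eq]
  simp only [mem_B]

lemma inner_u_e (n N : ℕ) : ⟪(u N : Ell2 𝕜), e n⟫_𝕜 = if blk n = N then (w n : 𝕜) else 0 := by
  rw [← inner_conj_symm, inner_e_u]
  split_ifs <;> simp

lemma inner_u_u (N M : ℕ) : ⟪(u N : Ell2 𝕜), u M⟫_𝕜 = if N = M then 1 else 0 := by
  conv_lhs => rw [u]
  rw [sum_inner]
  simp only [inner_smul_left, inner_e_u]
  by_cases h : N = M
  · subst h
    rw [if_pos rfl]
    have : ∀ n ∈ B N, (starRingEnd 𝕜) (w n : 𝕜) * (if blk n = N then (w n : 𝕜) else 0)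
        = ((w n * w n : ℝ) : 𝕜) := by
      intro n hn
      rw [mem_B] at hn
      rw [if_pos hn]
      simp
    rw [Finset.sum_congr rfl this, ← RCLike.ofReal_sum, sum_w_sq]
    simp
  · rw [if_neg h]
    refine Finset.sum_eq_zero fun n hn => ?_
    rw [mem_B] at hn
    rw [if_neg (by rw [hn]; exact h), mul_zero]

lemma orthonormal_u : Orthonormal 𝕜 (u : ℕ → Ell2 𝕜) := by
  rw [orthonormal_iff_ite]
  exact inner_u_u

/-- The perturbed system with block coefficients `α`. -/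
noncomputable def X (α : ℕ → ℝ) (n : ℕ) : Ell2 𝕜 :=
  e n + ((α (blk n) * a n : ℝ) : 𝕜) • u (blk n)

lemma biorth_X (α β : ℕ → ℝ) (h : ∀ N, α N + β N + α N * β N * lam N = 0) (n k : ℕ) :
    ⟪(X β n : Ell2 𝕜), X α k⟫_𝕜 = if n = k then 1 else 0 := by
  unfold X
  rw [inner_add_left, inner_add_right, inner_add_right, inner_smul_left, inner_smul_left,
    inner_smul_right, inner_smul_right, inner_e_e, inner_e_u, inner_u_e, inner_u_u]
  by_cases hb : blk n = blk k
  · rw [if_pos hb, if_pos hb, if_pos hb.symm]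
    simp only [RCLike.conj_ofReal, mul_one]
    rw [hb]
    rw [← RCLike.ofReal_mul, ← RCLike.ofReal_mul, ← RCLike.ofReal_mul]
    rw [add_assoc, ← RCLike.ofReal_add, ← RCLike.ofReal_add]
    have : α (blk k) * a k * w n + (β (blk k) * a n * w k + β (blk k) * a n * (α (blk k) * a k))
        = 0 := by
      have h' := h (blk k)
      have hl := (lam_pos (blk k)).ne'
      unfold w
      rw [hb]
      field_simp
      linear_combination (a k * a n) * h'
    rw [this]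
    simp
  · have hb' : ¬ blk k = blk n := fun h => hb h.symm
    have hnk : ¬ n = k := fun h => hb (by rw [h])
    simp [hb, hb', hnk]

lemma e_mem_span (α β : ℕ → ℝ) (h : ∀ N, α N + β N + α N * β N * lam N = 0) (k : ℕ) :
    (e k : Ell2 𝕜) ∈ Submodule.span 𝕜 (Set.range (X α : ℕ → Ell2 𝕜)) := by
  have key : (e k : Ell2 𝕜) = X α k + ((β (blk k) * a k : ℝ) : 𝕜) •
      ∑ j ∈ B (blk k), (w j : 𝕜) • X α j := by
    have h1 : ∑ j ∈ B (blk k), (w j : 𝕜) • (X α j : Ell2 𝕜)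
        = u (blk k) + ((α (blk k) * lam (blk k) : ℝ) : 𝕜) • u (blk k) := by
      have : ∀ j ∈ B (blk k), (w j : 𝕜) • (X α j : Ell2 𝕜)
          = (w j : 𝕜) • e j + ((α (blk k) * (w j * a j) : ℝ) : 𝕜) • u (blk k) := by
        intro j hj
        rw [mem_B] at hj
        unfold X
        rw [hj, smul_add, smul_smul, ← RCLike.ofReal_mul]
        congr 3
        ring
      rw [Finset.sum_congr rfl this, Finset.sum_add_distrib, ← Finset.sum_smul,
        ← RCLike.ofReal_sum, ← Finset.mul_sum, sum_w_a]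
      rfl
    rw [h1]
    unfold X
    rw [smul_add, smul_smul, ← RCLike.ofReal_mul, add_assoc, ← add_smul, ← add_smul,
      ← RCLike.ofReal_add, ← RCLike.ofReal_add]
    have : α (blk k) * a k + (β (blk k) * a k + β (blk k) * a k * (α (blk k) * lam (blk k)))
        = 0 := by
      linear_combination (a k) * h (blk k)
    rw [this]
    simp
  rw [key]
  refine Submodule.add_mem _ (Submodule.subset_span ⟨k, rfl⟩) (Submodule.smul_mem _ _ ?_)
  exact Submodule.sum_mem _ fun j _ =>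
    Submodule.smul_mem _ _ (Submodule.subset_span ⟨j, rfl⟩)

lemma norm_sq_sum {v : ℕ → Ell2 𝕜} (hv : Orthonormal 𝕜 v) (l : ℕ → 𝕜) (S : Finset ℕ) :
    ‖∑ i ∈ S, l i • v i‖ ^ 2 = ∑ i ∈ S, ‖l i‖ ^ 2 := by
  have h := hv.inner_sum l l S
  rw [inner_self_eq_norm_sq_to_K] at h
  have h2 : ∀ i, (starRingEnd 𝕜) (l i) * l i = ((‖l i‖ ^ 2 : ℝ) : 𝕜) := by
    intro i
    rw [RCLike.conj_mul]
    norm_cast
  simp only [h2] at h
  rw [← RCLike.ofReal_sum] at h
  exact_mod_cast h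

lemma norm_sum_X_le (α : ℕ → ℝ) (hα : ∀ N, |α N| ≤ 1) (A : Finset ℕ) (ε : ℕ → 𝕜)
    (hε : ∀ n, ‖ε n‖ = 1) : ‖∑ n ∈ A, ε n • (X α n : Ell2 𝕜)‖ ≤ 3 * √(A.card : ℝ) := by
  have h1 : ∑ n ∈ A, ε n • (X α n : Ell2 𝕜) = ∑ n ∈ A, ε n • e n +
      ∑ N ∈ A.image blk, (∑ n ∈ A with blk n = N, ε n * ((α N * a n : ℝ) : 𝕜)) • u N := by
    have h2 : ∀ N ∈ A.image blk,
        (∑ n ∈ A with blk n = N, ε n * ((α N * a n : ℝ) : 𝕜)) • (u N : Ell2 𝕜)
        = ∑ n ∈ A with blk n = N, ε n • ((α (blk n) * a n : ℝ) : 𝕜) • u (blk n) := by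
      intro N _
      rw [Finset.sum_smul]
      refine Finset.sum_congr rfl fun n hn => ?_
      rw [(Finset.mem_filter.1 hn).2, smul_smul]
    rw [Finset.sum_congr rfl h2,
      Finset.sum_fiberwise_of_maps_to (fun n hn => Finset.mem_image_of_mem blk hn),
      ← Finset.sum_add_distrib]
    refine Finset.sum_congr rfl fun n _ => ?_
    unfold X
    rw [smul_add]
  have h3 : ‖∑ n ∈ A, ε n • (e n : Ell2 𝕜)‖ ≤ √(A.card : ℝ) := by
    apply Real.le_sqrt_of_sq_le
    rw [norm_sq_sum orthonormal_e]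
    simp [hε]
  have h4 : ‖∑ N ∈ A.image blk, (∑ n ∈ A with blk n = N, ε n * ((α N * a n : ℝ) : 𝕜)) •
      (u N : Ell2 𝕜)‖ ≤ 2 * √(A.card : ℝ) := by
    have h5 : ‖∑ N ∈ A.image blk, (∑ n ∈ A with blk n = N, ε n * ((α N * a n : ℝ) : 𝕜)) •
      (u N : Ell2 𝕜)‖ ^ 2 ≤ 4 * A.card := by
      rw [norm_sq_sum orthonormal_u (fun N => ∑ n ∈ A with blk n = N, ε n * ((α N * a n : ℝ) : 𝕜))]
      have h6 : ∀ N ∈ A.image blk,
          ‖∑ n ∈ A with blk n = N, ε n * ((α N * a n : ℝ) : 𝕜)‖ ^ 2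
            ≤ 4 * ((A.filter fun n => blk n = N).card : ℝ) := by
        intro N _
        have h7 : ‖∑ n ∈ A with blk n = N, ε n * ((α N * a n : ℝ) : 𝕜)‖
            ≤ 2 * √((A.filter fun n => blk n = N).card : ℝ) := by
          refine (norm_sum_le _ _).trans ?_
          refine le_trans ?_ (sum_a_le N (A.filter fun n => blk n = N)
            (fun n hn => (Finset.mem_filter.1 hn).2))
          refine Finset.sum_le_sum fun n _ => ?_
          rw [norm_mul, hε, one_mul, RCLike.norm_ofReal, abs_mul, abs_of_pos (a_pos n)]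
          calc |α N| * a n ≤ 1 * a n := by
                exact mul_le_mul_of_nonneg_right (hα N) (a_pos n).le
            _ = a n := one_mul _
        calc ‖∑ n ∈ A with blk n = N, ε n * ((α N * a n : ℝ) : 𝕜)‖ ^ 2
            ≤ (2 * √((A.filter fun n => blk n = N).card : ℝ)) ^ 2 := by
              exact pow_le_pow_left₀ (norm_nonneg _) h7 2
          _ = 4 * ((A.filter fun n => blk n = N).card : ℝ) := by
              rw [mul_pow, Real.sq_sqrt (by positivity)]
              norm_num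
      refine (Finset.sum_le_sum h6).trans ?_
      rw [← Finset.mul_sum]
      have h8 : ∑ N ∈ A.image blk, ((A.filter fun n => blk n = N).card : ℝ) = A.card := by
        rw [← Nat.cast_sum]
        congr 1
        exact (Finset.card_eq_sum_card_image blk A).symm
      rw [h8]
    have h9 : (2 * √(A.card : ℝ)) ^ 2 = 4 * A.card := by
      rw [mul_pow, Real.sq_sqrt (by positivity)]
      norm_num
    rw [← h9] at h5
    exact le_of_sq_le_sq h5 (by positivity)
  rw [h1]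
  refine (norm_add_le _ _).trans ?_
  linarith

lemma phi_X_le (α : ℕ → ℝ) (hα : ∀ N, |α N| ≤ 1) (m : ℕ) :
    phi (X α : ℕ → Ell2 𝕜) m ≤ ENNReal.ofReal (3 * √(m : ℝ)) := by
  unfold phi
  refine iSup_le fun A => iSup_le fun hA => iSup_le fun ε => iSup_le fun hε => ?_
  rw [← ofReal_norm]
  apply ENNReal.ofReal_le_ofReal
  refine (norm_sum_X_le α hα A ε hε).trans ?_
  have : (A.card : ℝ) ≤ m := by exact_mod_cast hA
  have := Real.sqrt_le_sqrt this
  linarith

lemma norm_X_le (α : ℕ → ℝ) (hα : ∀ N, |α N| ≤ 1) (n : ℕ) : ‖(X α n : Ell2 𝕜)‖ ≤ 3 := by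
  have := norm_sum_X_le (𝕜 := 𝕜) α hα {n} (fun _ => 1) (fun _ => by simp)
  simpa using this

lemma eq_zero_of_inner_X (α β : ℕ → ℝ) (h : ∀ N, α N + β N + α N * β N * lam N = 0)
    (f : Ell2 𝕜) (hf : ∀ n, ⟪(X α n : Ell2 𝕜), f⟫_𝕜 = 0) : f = 0 := by
  have h1 : ∀ v ∈ Submodule.span 𝕜 (Set.range (X α : ℕ → Ell2 𝕜)), ⟪v, f⟫_𝕜 = 0 := by
    intro v hv
    induction hv using Submodule.span_induction with
    | mem x hx => obtain ⟨n, rfl⟩ := hx; exact hf n
    | zero => simp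
    | add x y _ _ hx hy => rw [inner_add_left, hx, hy, add_zero]
    | smul c x _ hx => rw [inner_smul_left, hx, mul_zero]
  ext k
  have := h1 _ (e_mem_span α β h k)
  rw [inner_e_left] at this
  simpa using this

lemma dense_span_X (α β : ℕ → ℝ) (h : ∀ N, α N + β N + α N * β N * lam N = 0) :
    (Submodule.span 𝕜 (Set.range (X α : ℕ → Ell2 𝕜))).topologicalClosure = ⊤ := by
  rw [Submodule.topologicalClosure_eq_top_iff, Submodule.eq_bot_iff]
  intro f hf
  rw [Submodule.mem_orthogonal] at hf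
  exact eq_zero_of_inner_X α β h f fun n => hf _ (Submodule.subset_span ⟨n, rfl⟩)

end vectors

/-! ### Lorentz norms of the test sequences -/

section lorentz

variable {𝕜 : Type} [RCLike 𝕜]

/-- If `‖b i‖ ≤ a i` on block `N` and `b` vanishes off that block then the rearrangement of `b` is
at most `1/√(n+1)` for `n < 2^N`. -/
lemma rearr_le (N : ℕ) (b : ℕ → 𝕜) (hb : ∀ i ∈ B N, ‖b i‖ ≤ a i) (hb' : ∀ i, i ∉ B N → b i = 0)
    (n : ℕ) : rearr b n ≤ if n < 2 ^ N then ENNReal.ofReal (1 / √((n : ℝ) + 1)) else 0 := by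
  unfold rearr
  split_ifs with hn
  · apply sInf_le
    simp only [Set.mem_ofPred_eq]
    have hsub : {i : ℕ | ENNReal.ofReal (1 / √((n : ℝ) + 1)) < ‖b i‖ₑ}
        ⊆ (((B N).filter fun i => pos i < n : Finset ℕ) : Set ℕ) := by
      intro i hi
      simp only [Set.mem_ofPred_eq] at hi
      rw [← ofReal_norm, ENNReal.ofReal_lt_ofReal_iff_of_nonneg (by positivity)] at hi
      have hiB : i ∈ B N := by
        by_contra hcon
        rw [hb' i hcon, norm_zero] at hi
        have : 0 < 1 / √((n : ℝ) + 1) := by positivity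
        linarith
      have h2 := lt_of_lt_of_le hi (hb i hiB)
      simp only [Finset.coe_filter, Set.mem_ofPred_eq]
      refine ⟨hiB, ?_⟩
      unfold a at h2
      rw [one_div_lt_one_div (by positivity) (by positivity)] at h2
      rw [Real.sqrt_lt_sqrt_iff (by positivity)] at h2
      have : (pos i : ℝ) < n := by linarith
      exact_mod_cast this
    refine (Set.encard_le_encard hsub).trans ?_
    rw [Set.encard_coe_eq_coe_finsetCard]
    have : ((B N).filter fun i => pos i < n).card ≤ n := by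
      have h1 : ((B N).filter fun i => pos i < n).card = ∑ i ∈ B N, if pos i < n then 1 else 0 := by
        rw [Finset.card_filter]
      rw [h1, sum_B N (fun j => if j < n then 1 else 0), ← Finset.card_filter]
      have : (Finset.range (2 ^ N)).filter (fun j => j < n) ⊆ Finset.range n := by
        intro j hj
        simpa using (Finset.mem_filter.1 hj).2
      simpa using Finset.card_le_card this
    exact_mod_cast this
  · apply sInf_le
    simp only [Set.mem_ofPred_eq]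
    have hsub : {i : ℕ | (0 : ℝ≥0∞) < ‖b i‖ₑ} ⊆ ((B N : Finset ℕ) : Set ℕ) := by
      intro i hi
      simp only [Set.mem_ofPred_eq] at hi
      by_contra hcon
      rw [hb' i hcon] at hi
      simp at hi
    refine (Set.encard_le_encard hsub).trans ?_
    rw [Set.encard_coe_eq_coe_finsetCard]
    have : (B N).card = 2 ^ N := by
      have := sum_B N (fun _ => 1)
      simpa using this
    rw [this]
    exact_mod_cast not_lt.1 hn

/-- If `a i ≤ ‖b i‖` on block `N` then the rearrangement of `b` is at least `1/√(n+1)` for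
`n < 2^N`. -/
lemma le_rearr (N : ℕ) (b : ℕ → 𝕜) (hb : ∀ i ∈ B N, a i ≤ ‖b i‖)
    (n : ℕ) (hn : n < 2 ^ N) : ENNReal.ofReal (1 / √((n : ℝ) + 1)) ≤ rearr b n := by
  unfold rearr
  apply le_sInf
  intro t ht
  simp only [Set.mem_ofPred_eq] at ht
  by_contra hcon
  rw [not_le] at hcon
  have hsub : (((B N).filter fun i => pos i < n + 1 : Finset ℕ) : Set ℕ) ⊆ {i : ℕ | t < ‖b i‖ₑ} := by
    intro i hi
    simp only [Finset.coe_filter, Set.mem_ofPred_eq] at hi
    simp only [Set.mem_ofPred_eq]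
    refine lt_of_lt_of_le hcon ?_
    rw [← ofReal_norm]
    apply ENNReal.ofReal_le_ofReal
    refine le_trans ?_ (hb i hi.1)
    unfold a
    apply one_div_le_one_div_of_le (by positivity)
    apply Real.sqrt_le_sqrt
    have : (pos i : ℝ) ≤ n := by exact_mod_cast Nat.lt_succ_iff.1 hi.2
    linarith
  have h1 := (Set.encard_le_encard hsub).trans ht
  rw [Set.encard_coe_eq_coe_finsetCard] at h1
  have h2 : ((B N).filter fun i => pos i < n + 1).card = n + 1 := by
    have h1 : ((B N).filter fun i => pos i < n + 1).card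
        = ∑ i ∈ B N, if pos i < n + 1 then 1 else 0 := by
      rw [Finset.card_filter]
    rw [h1, sum_B N (fun j => if j < n + 1 then 1 else 0), ← Finset.card_filter]
    have : (Finset.range (2 ^ N)).filter (fun j => j < n + 1) = Finset.range (n + 1) := by
      ext j
      simp only [Finset.mem_filter, Finset.mem_range]
      omega
    rw [this, Finset.card_range]
  rw [h2] at h1
  have h3 : n + 1 ≤ n := by exact_mod_cast h1
  omega

lemma term_eq (q : ℝ) (n : ℕ) :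
    ENNReal.ofReal (1 / √((n : ℝ) + 1)) ^ q * ((n : ℝ≥0∞) + 1) ^ (q / 2 - 1)
      = ENNReal.ofReal (1 / ((n : ℝ) + 1)) := by
  have hn : (0 : ℝ) < (n : ℝ) + 1 := by positivity
  have h1 : ((n : ℝ≥0∞) + 1) = ENNReal.ofReal ((n : ℝ) + 1) := by
    rw [ENNReal.ofReal_add (by positivity) zero_le_one]
    simp
  have h2 : (1 / √((n : ℝ) + 1)) = ((n : ℝ) + 1) ^ (-(1 / 2) : ℝ) := by
    rw [Real.rpow_neg hn.le, ← Real.sqrt_eq_rpow, one_div]
  rw [h1, h2, ENNReal.ofReal_rpow_of_pos (by positivity), ENNReal.ofReal_rpow_of_pos hn,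
    ← ENNReal.ofReal_mul (by positivity), ← Real.rpow_mul hn.le, ← Real.rpow_add hn]
  congr 1
  rw [show -(1 / 2) * q + (q / 2 - 1) = (-1 : ℝ) by ring, Real.rpow_neg_one, one_div]

lemma ofReal_s (N : ℕ) : ENNReal.ofReal (s N)
    = ∑ n ∈ Finset.range (2 ^ N), ENNReal.ofReal (1 / ((n : ℝ) + 1)) := by
  rw [s_eq, ENNReal.ofReal_sum_of_nonneg]
  intro i _
  positivity

lemma lorentz_le (N : ℕ) (q : ℝ) (hq : 0 < q) (b : ℕ → 𝕜) (hb : ∀ i ∈ B N, ‖b i‖ ≤ a i)
    (hb' : ∀ i, i ∉ B N → b i = 0) : lorentz q b ≤ ENNReal.ofReal (s N) ^ (1 / q) := by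
  unfold lorentz
  apply ENNReal.rpow_le_rpow _ (by positivity)
  have hz : ∀ n ∉ Finset.range (2 ^ N), rearr b n ^ q * ((n : ℝ≥0∞) + 1) ^ (q / 2 - 1) = 0 := by
    intro n hn
    have h1 := rearr_le N b hb hb' n
    rw [if_neg (by simpa using hn)] at h1
    rw [nonpos_iff_eq_zero.1 h1, ENNReal.zero_rpow_of_pos hq, zero_mul]
  rw [tsum_eq_sum hz, ofReal_s]
  refine Finset.sum_le_sum fun n hn => ?_
  rw [← term_eq q n]
  have h1 := rearr_le N b hb hb' n
  rw [if_pos (Finset.mem_range.1 hn)] at h1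
  gcongr

lemma le_lorentz (N : ℕ) (q : ℝ) (hq : 0 < q) (b : ℕ → 𝕜) (hb : ∀ i ∈ B N, a i ≤ ‖b i‖) :
    ENNReal.ofReal (s N) ^ (1 / q) ≤ lorentz q b := by
  unfold lorentz
  apply ENNReal.rpow_le_rpow _ (by positivity)
  rw [ofReal_s]
  refine le_trans ?_ (ENNReal.sum_le_tsum (Finset.range (2 ^ N)))
  refine Finset.sum_le_sum fun n hn => ?_
  rw [← term_eq q n]
  gcongr
  exact le_rearr N b hb n (Finset.mem_range.1 hn)

end lorentz

/-! ### The main result -/

section main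

/-- Coefficients of the basis. -/
noncomputable def al (N : ℕ) : ℝ := if Even N then 1 else -(1 / (1 + lam N))

/-- Coefficients of the dual basis. -/
noncomputable def be (N : ℕ) : ℝ := if Even N then -(1 / (1 + lam N)) else 1

lemma al_be (N : ℕ) : al N + be N + al N * be N * lam N = 0 := by
  have h := lam_pos N
  unfold al be
  split_ifs <;> field_simp <;> ring

lemma be_al (N : ℕ) : be N + al N + be N * al N * lam N = 0 := by
  rw [← al_be N]; ring

lemma abs_inv_le (N : ℕ) : |-(1 / (1 + lam N))| ≤ 1 := by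
  have h := lam_pos N
  rw [abs_neg, abs_of_pos (by positivity), div_le_one (by positivity)]
  linarith

lemma abs_al (N : ℕ) : |al N| ≤ 1 := by
  unfold al
  split_ifs
  · simp
  · exact abs_inv_le N

lemma abs_be (N : ℕ) : |be N| ≤ 1 := by
  unfold be
  split_ifs
  · exact abs_inv_le N
  · simp

variable {𝕜 : Type} [RCLike 𝕜]

lemma isBasis : IsBasis (X al : ℕ → Ell2 𝕜) (X be) where
  dense_span := dense_span_X al be al_be
  biorth := biorth_X al be al_be
  separates := eq_zero_of_inner_X be al be_al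
  bounded := ⟨3, fun n => ⟨norm_X_le al abs_al n, norm_X_le be abs_be n⟩⟩

lemma isBidemocratic : IsBidemocratic (X al : ℕ → Ell2 𝕜) (X be) := by
  refine ⟨9, by norm_num, fun m _ => ?_⟩
  refine (mul_le_mul' (phi_X_le al abs_al m) (phi_X_le be abs_be m)).trans ?_
  rw [← ENNReal.ofReal_mul (by positivity)]
  have h1 : 3 * √(m : ℝ) * (3 * √(m : ℝ)) = 9 * m := by
    have := Real.mul_self_sqrt (Nat.cast_nonneg (α := ℝ) m)
    linear_combination 9 * this
  rw [h1, ENNReal.ofReal_mul (by norm_num)]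
  simp

/-- A constant cannot dominate `s N / (s N)^(1/q)` along any cofinal set of `N`. -/
lemma no_const (C : ℝ≥0∞) (hC : C ≠ ∞) (p : ℝ) (hp : 0 < p) (P : ℕ → Prop)
    (hP : ∀ M, ∃ N, M ≤ N ∧ P N) (h : ∀ N, P N → ENNReal.ofReal (s N) ^ p ≤ C) : False := by
  obtain ⟨M, hM⟩ := (s_tendsto.eventually_gt_atTop ((C ^ (1 / p)).toReal)).exists_forall_of_atTop
  obtain ⟨N, hMN, hN⟩ := hP M
  have h1 := h N hN
  have h2 := hM N hMN
  have h3 : C ^ (1 / p) < ENNReal.ofReal (s N) := by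
    rw [← ENNReal.toReal_lt_toReal (by simp [hC, hp.le]) ENNReal.ofReal_ne_top,
      ENNReal.toReal_ofReal (by linarith [one_le_s N])]
    exact h2
  have h4 : C < ENNReal.ofReal (s N) ^ p := by
    have := ENNReal.rpow_lt_rpow h3 hp
    rw [← ENNReal.rpow_mul, one_div_mul_cancel hp.ne', ENNReal.rpow_one] at this
    exact this
  exact absurd h1 (not_le.2 h4)

lemma not_embedsInto (q : ℝ) (hq : 1 < q) : ¬ EmbedsInto (X al : ℕ → Ell2 𝕜) q := by
  rintro ⟨C, hC, h⟩
  have hq0 : 0 < q := by linarith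
  refine no_const C hC (1 - 1 / q) ?_ (fun N => Even N) (fun M => ⟨2 * M, by omega, by simp⟩) ?_
  · rw [sub_pos, div_lt_one hq0]; exact hq
  intro N hN
  -- test vector
  have h1 := h (Finsupp.onFinset (B N) (fun n => if n ∈ B N then ((a n : ℝ) : 𝕜) else 0)
    (fun n hn => by by_contra hcon; exact hn (if_neg hcon)))
  have h2 : (Finsupp.onFinset (B N) (fun n => if n ∈ B N then ((a n : ℝ) : 𝕜) else 0)
    (fun n hn => by by_contra hcon; exact hn (if_neg hcon))).sum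
      (fun n c => c • (X al n : Ell2 𝕜)) = ((lam N + s N : ℝ) : 𝕜) • u N := by
    rw [Finsupp.onFinset_sum (g := fun n c => c • (X al n : Ell2 𝕜)) _ (fun n => zero_smul _ _)]
    have h3 : ∀ n ∈ B N, (if n ∈ B N then ((a n : ℝ) : 𝕜) else 0) • (X al n : Ell2 𝕜)
        = ((lam N : ℝ) : 𝕜) • ((w n : 𝕜) • e n) + ((a n ^ 2 : ℝ) : 𝕜) • u N := by
      intro n hn
      rw [if_pos hn]
      rw [mem_B] at hn
      unfold X
      rw [hn, smul_add, smul_smul, smul_smul, ← RCLike.ofReal_mul, ← RCLike.ofReal_mul]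
      have e1 : lam N * w n = a n := by
        unfold w
        rw [hn]
        field_simp [(lam_pos N).ne']
      have e2 : al N = 1 := if_pos hN
      rw [e1, e2, one_mul, sq]
    rw [Finset.sum_congr rfl h3, Finset.sum_add_distrib, ← Finset.smul_sum, ← Finset.sum_smul,
      ← RCLike.ofReal_sum]
    change ((lam N : ℝ) : 𝕜) • u N + ((s N : ℝ) : 𝕜) • u N = _
    rw [← add_smul, ← RCLike.ofReal_add]
  rw [h2] at h1
  have h4 : ‖((lam N + s N : ℝ) : 𝕜) • (u N : Ell2 𝕜)‖ₑ = ENNReal.ofReal (lam N + s N) := by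
    rw [← ofReal_norm, norm_smul, RCLike.norm_ofReal, (orthonormal_u (𝕜 := 𝕜)).1 N, mul_one,
      abs_of_pos (by linarith [lam_pos N, one_le_s N])]
  rw [h4] at h1
  have h5 := lorentz_le (𝕜 := 𝕜) N q hq0
    (fun n => if n ∈ B N then ((a n : ℝ) : 𝕜) else 0)
    (fun i hi => by
      simp only [if_pos hi, RCLike.norm_ofReal]
      rw [abs_of_pos (a_pos i)])
    (fun i hi => if_neg hi)
  have h6 : ENNReal.ofReal (s N) ≤ C * ENNReal.ofReal (s N) ^ (1 / q) := by
    refine le_trans (ENNReal.ofReal_le_ofReal (by linarith [lam_pos N])) (h1.trans ?_)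
    gcongr
    exact h5
  have hs : ENNReal.ofReal (s N) ≠ 0 := by
    rw [Ne, ENNReal.ofReal_eq_zero, not_le]
    linarith [one_le_s N]
  rw [ENNReal.rpow_sub _ _ hs ENNReal.ofReal_ne_top, ENNReal.rpow_one]
  apply ENNReal.div_le_of_le_mul
  exact h6

lemma not_embedsOut (r : ℝ) (hr : 0 < r) : ¬ EmbedsOut (X be : ℕ → Ell2 𝕜) r := by
  rintro ⟨C, hC, h⟩
  refine no_const C hC (1 / r) (by positivity) (fun N => ¬ Even N)
    (fun M => ⟨2 * M + 1, by omega, by simp⟩) ?_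
  intro N hN
  have h1 := h (u N)
  have h2 : ‖(u N : Ell2 𝕜)‖ₑ = 1 := by
    rw [← ofReal_norm, (orthonormal_u (𝕜 := 𝕜)).1 N]
    simp
  rw [h2, mul_one] at h1
  refine le_trans ?_ h1
  apply le_lorentz N r hr
  intro i hi
  rw [mem_B] at hi
  unfold X
  rw [inner_add_left, inner_smul_left, inner_e_u, if_pos hi, inner_u_u, if_pos hi, mul_one,
    RCLike.conj_ofReal, ← RCLike.ofReal_add, RCLike.norm_ofReal]
  have e2 : be (blk i) = 1 := by rw [hi]; exact if_neg hN
  rw [e2, one_mul]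
  have : 0 ≤ w i := by
    unfold w
    exact div_nonneg (a_pos i).le (lam_pos _).le
  refine le_trans ?_ (le_abs_self _)
  linarith

end main

/-- There is a bidemocratic basis `(x_n)` of `ℓ₂` (real or complex scalars) such that
`ℓ_{2,q} ↪ ℓ₂` through the basis fails for every `q > 1` and `ℓ₂ ↪ ℓ_{2,r}` through the basis fails
for every `0 < r < ∞`. In particular no pair `1 < q < r < ∞` has both embeddings (or even one of
them). -/
theorem result (𝕜 : Type) [RCLike 𝕜] :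
    ∃ x y : ℕ → Ell2 𝕜, IsBasis x y ∧ IsBidemocratic x y ∧
      (∀ q : ℝ, 1 < q → ¬ EmbedsInto x q) ∧ (∀ r : ℝ, 0 < r → ¬ EmbedsOut y r) :=
  ⟨X al, X be, isBasis, isBidemocratic, not_embedsInto, not_embedsOut⟩

end Pool.Agent.Results.MP_c77635_an.NoLorentzSqueeze
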